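import Pool.Agent.Lib.MP_7bfa24_nt.Semi.Core

set_option autoImplicit false

namespace Pool.Agent.MP_7bfa24_nt.Semi

open Finset

/-- `y` divides a power of `b`. -/
def Sm (b y : ℤ) : Prop := ∃ N : ℕ, y ∣ b ^ N

theorem Sm.mul {b y z : ℤ} (hy : Sm b y) (hz : Sm b z) : Sm b (y * z) := by
  obtain ⟨N, hN⟩ := hy
  obtain ⟨M, hM⟩ := hz
  exact ⟨N + M, by rw [pow_add]; exact mul_dvd_mul hN hM⟩

theorem Sm.of_dvd {b y : ℤ} (h : y ∣ b) : Sm b y := ⟨1, by simpa using h⟩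

theorem Sm.one (b : ℤ) : Sm b 1 := ⟨0, by simp⟩

theorem Sm.pow {b y : ℤ} (hy : Sm b y) (k : ℕ) : Sm b (y ^ k) := by
  induction k with
  | zero => simpa using Sm.one b
  | succ k ih => rw [pow_succ]; exact ih.mul hy

theorem Sm.neg {b y : ℤ} (hy : Sm b y) : Sm b (-y) := by
  obtain ⟨N, hN⟩ := hy
  exact ⟨N, by simpa using hN⟩

theorem Sm.mono {b c y : ℤ} (hy : Sm b y) (h : b ∣ c) : Sm c y := by
  obtain ⟨N, hN⟩ := hy
  exact ⟨N, dvd_trans hN (pow_dvd_pow_of_dvd h N)⟩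

/-- For `x = 2^m` there is a good relation with `d + 2` terms, made of powers of the primes up to
`19` and of divisors of powers of `x^2 - 1`, one of whose terms is at least `(x-1)^(4d)`. -/
def Has (x : ℤ) (d : ℕ) : Prop :=
  ∃ (ι : Type) (_ : Fintype ι) (p q : ℤ) (s : ι → ℤ), Fintype.card ι = d ∧ Good p q s ∧
    Sm 418 p ∧ Sm (91 * (x ^ 2 - 1)) q ∧ (∀ i, Sm (570570 * (x ^ 2 - 1)) (s i)) ∧
    (x - 1) ^ (4 * d) ≤ |q|

theorem Has.add {x : ℤ} (hx : 1 ≤ x) {d e : ℕ} (h : Has x d) (h' : Has x e) : Has x (d + e) := by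
  obtain ⟨ι, _, p, q, s, hc, hg, hp, hq, hs, hb⟩ := h
  obtain ⟨κ, _, p', q', s', hc', hg', hp', hq', hs', hb'⟩ := h'
  refine ⟨ι ⊕ κ, inferInstance, p * p', -(q * q'), glue q p' s s', ?_, hg.glue hg',
    hp.mul hp', (hq.mul hq').neg, ?_, ?_⟩
  · rw [Fintype.card_sum, hc, hc']
  · have d1 : (418 : ℤ) ∣ 570570 * (x ^ 2 - 1) := Dvd.dvd.mul_right (by norm_num) _
    have d2 : 91 * (x ^ 2 - 1) ∣ 570570 * (x ^ 2 - 1) := mul_dvd_mul_right (by norm_num) _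
    rintro (i | j)
    · exact (hp'.mono d1).mul (hs i)
    · exact ((hq.mono d2).neg).mul (hs' j)
  · rw [abs_neg, abs_mul, mul_add, pow_add]
    exact mul_le_mul hb hb' (pow_nonneg (by linarith) _) (abs_nonneg _)

section base

variable (m : ℕ)

private theorem odd_a (hm : 1 ≤ m) : Odd ((2 : ℤ) ^ m - 1) := by
  obtain ⟨k, rfl⟩ := Nat.exists_eq_add_of_le hm
  exact ⟨2 ^ k - 1, by rw [pow_add]; ring⟩

private theorem odd_c (hm : 1 ≤ m) : Odd ((2 : ℤ) ^ m + 1) := by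
  obtain ⟨k, rfl⟩ := Nat.exists_eq_add_of_le hm
  exact ⟨2 ^ k, by rw [pow_add]; ring⟩

private theorem odd_v (hm : 1 ≤ m) : Odd (((2 : ℤ) ^ m) ^ 2 - 1) := by
  have := (odd_a m hm).mul (odd_c m hm)
  have e : ((2 : ℤ) ^ m - 1) * (2 ^ m + 1) = ((2 : ℤ) ^ m) ^ 2 - 1 := by ring
  rwa [e] at this

/-- eight summands -/
def s8 (x : ℤ) : Fin 8 → ℤ :=
  ![-((x - 1) ^ 27 * (x + 1) ^ 5), -(44 * x * (x ^ 2 - 1) ^ 15), -(3520 * x ^ 3 * (x ^ 2 - 1) ^ 13),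
    -(13312 * x ^ 5 * (x ^ 2 - 1) ^ 11), 65536 * x ^ 5, 851968 * x ^ 11 * (x ^ 2 - 1) ^ 5,
    3604480 * x ^ 13 * (x ^ 2 - 1) ^ 3, 720896 * x ^ 15 * (x ^ 2 - 1)]

theorem sum8 (x : ℤ) : -(65536 * x ^ 27) + (x - 1) ^ 5 * (x + 1) ^ 27 + ∑ i, s8 x i = 0 := by
  simp only [s8, Fin.sum_univ_succ, Fin.sum_univ_zero, Matrix.cons_val_zero, Matrix.cons_val_succ]
  ring

theorem good8 (hm : 1 ≤ m) : Good (-(65536 * ((2 : ℤ) ^ m) ^ 27))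
    (((2 : ℤ) ^ m - 1) ^ 5 * ((2 : ℤ) ^ m + 1) ^ 27) (s8 ((2 : ℤ) ^ m)) := by
  have ha := odd_a m hm
  have hc := odd_c m hm
  have hv := odd_v m hm
  refine ⟨sum8 _, 27 * m + 16, -1, by ring, by decide, ha.pow.mul hc.pow, ?_⟩
  intro J hJ
  refine chain_ne (s8 ((2 : ℤ) ^ m))
    ![-(((2 : ℤ) ^ m - 1) ^ 27 * ((2 : ℤ) ^ m + 1) ^ 5), -(11 * (((2 : ℤ) ^ m) ^ 2 - 1) ^ 15),
      -(55 * (((2 : ℤ) ^ m) ^ 2 - 1) ^ 13), -(13 * (((2 : ℤ) ^ m) ^ 2 - 1) ^ 11), 1,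
      13 * (((2 : ℤ) ^ m) ^ 2 - 1) ^ 5, 55 * (((2 : ℤ) ^ m) ^ 2 - 1) ^ 3,
      11 * (((2 : ℤ) ^ m) ^ 2 - 1)]
    ![0, m + 2, 3 * m + 6, 5 * m + 10, 5 * m + 16, 11 * m + 16, 13 * m + 16, 15 * m + 16]
    (27 * m + 16) ?_ ?_ ?_ ?_ J hJ
  · intro i j hij
    fin_cases i <;> fin_cases j <;> simp at hij ⊢ <;> omega
  · intro i
    fin_cases i <;> simp [s8] <;> ring
  · intro i
    fin_cases i
    · exact (ha.pow.mul hc.pow).neg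
    · exact ((by decide : Odd (11 : ℤ)).mul hv.pow).neg
    · exact ((by decide : Odd (55 : ℤ)).mul hv.pow).neg
    · exact ((by decide : Odd (13 : ℤ)).mul hv.pow).neg
    · exact odd_one
    · exact (by decide : Odd (13 : ℤ)).mul hv.pow
    · exact (by decide : Odd (55 : ℤ)).mul hv.pow
    · exact (by decide : Odd (11 : ℤ)).mul hv
  · intro i
    fin_cases i <;> simp <;> omega

/-- nine summands -/
def s9 (x : ℤ) : Fin 9 → ℤ :=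
  ![13 * ((x - 1) ^ 29 * (x + 1) ^ 7), 572 * x * (x ^ 2 - 1) ^ 17, 45760 * x ^ 3 * (x ^ 2 - 1) ^ 15,
    304128 * x ^ 5 * (x ^ 2 - 1) ^ 13, -(720896 * x ^ 5), 9371648 * x ^ 9 * (x ^ 2 - 1) ^ 2,
    7667712 * x ^ 11 * (x ^ 2 - 1) ^ 7, -(9371648 * x ^ 17 * (x ^ 2 - 1)),
    -(9371648 * x ^ 23 * (x ^ 2 - 1) ^ 2)]

theorem sum9 (x : ℤ) :
    720896 * x ^ 31 + -(13 * ((x - 1) ^ 7 * (x + 1) ^ 29)) + ∑ i, s9 x i = 0 := by
  simp only [s9, Fin.sum_univ_succ, Fin.sum_univ_zero, Matrix.cons_val_zero, Matrix.cons_val_succ]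
  ring

theorem good9 (hm : 1 ≤ m) : Good (720896 * ((2 : ℤ) ^ m) ^ 31)
    (-(13 * (((2 : ℤ) ^ m - 1) ^ 7 * ((2 : ℤ) ^ m + 1) ^ 29))) (s9 ((2 : ℤ) ^ m)) := by
  have ha := odd_a m hm
  have hc := odd_c m hm
  have hv := odd_v m hm
  refine ⟨sum9 _, 31 * m + 16, 11, by ring, by decide,
    ((by decide : Odd (13 : ℤ)).mul (ha.pow.mul hc.pow)).neg, ?_⟩
  intro J hJ
  refine chain_ne (s9 ((2 : ℤ) ^ m))
    ![13 * (((2 : ℤ) ^ m - 1) ^ 29 * ((2 : ℤ) ^ m + 1) ^ 7), 143 * (((2 : ℤ) ^ m) ^ 2 - 1) ^ 17,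
      715 * (((2 : ℤ) ^ m) ^ 2 - 1) ^ 15, 297 * (((2 : ℤ) ^ m) ^ 2 - 1) ^ 13, -11,
      143 * (((2 : ℤ) ^ m) ^ 2 - 1) ^ 2, 117 * (((2 : ℤ) ^ m) ^ 2 - 1) ^ 7,
      -(143 * (((2 : ℤ) ^ m) ^ 2 - 1)), -(143 * (((2 : ℤ) ^ m) ^ 2 - 1) ^ 2)]
    ![0, m + 2, 3 * m + 6, 5 * m + 10, 5 * m + 16, 9 * m + 16, 11 * m + 16, 17 * m + 16,
      23 * m + 16]
    (31 * m + 16) ?_ ?_ ?_ ?_ J hJ
  · intro i j hij
    fin_cases i <;> fin_cases j <;> simp at hij ⊢ <;> omega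
  · intro i
    fin_cases i <;> simp [s9] <;> ring
  · intro i
    fin_cases i
    · exact (by decide : Odd (13 : ℤ)).mul (ha.pow.mul hc.pow)
    · exact (by decide : Odd (143 : ℤ)).mul hv.pow
    · exact (by decide : Odd (715 : ℤ)).mul hv.pow
    · exact (by decide : Odd (297 : ℤ)).mul hv.pow
    · exact (by decide : Odd (-11 : ℤ))
    · exact (by decide : Odd (143 : ℤ)).mul hv.pow
    · exact (by decide : Odd (117 : ℤ)).mul hv.pow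
    · exact ((by decide : Odd (143 : ℤ)).mul hv).neg
    · exact ((by decide : Odd (143 : ℤ)).mul hv.pow).neg
  · intro i
    fin_cases i <;> simp <;> omega

/-- ten summands -/
def s10 (x : ℤ) : Fin 10 → ℤ :=
  ![-(7 * ((x - 1) ^ 39 * (x + 1))), -(532 * x * (x ^ 2 - 1) ^ 19),
    -(127680 * x ^ 3 * (x ^ 2 - 1) ^ 17), -(8988672 * x ^ 5 * (x ^ 2 - 1) ^ 15),
    -(287637504 * x ^ 7 * (x ^ 2 - 1) ^ 13), -(4985716736 * x ^ 9 * (x ^ 2 - 1) ^ 11),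
    -(50763661312 * x ^ 11 * (x ^ 2 - 1) ^ 9), -(149183004672 * x ^ 13 * (x ^ 2 - 1) ^ 7),
    163208757248 * x ^ 13, -(781684047872 * x ^ 19 * (x ^ 2 - 1))]

theorem sum10 (x : ℤ) :
    -(163208757248 * x ^ 27) + 7 * ((x - 1) * (x + 1) ^ 39) + ∑ i, s10 x i = 0 := by
  simp only [s10, Fin.sum_univ_succ, Fin.sum_univ_zero, Matrix.cons_val_zero,
    Matrix.cons_val_succ]
  ring

theorem good10 (hm : 1 ≤ m) : Good (-(163208757248 * ((2 : ℤ) ^ m) ^ 27))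
    (7 * (((2 : ℤ) ^ m - 1) * ((2 : ℤ) ^ m + 1) ^ 39)) (s10 ((2 : ℤ) ^ m)) := by
  have ha := odd_a m hm
  have hc := odd_c m hm
  have hv := odd_v m hm
  refine ⟨sum10 _, 27 * m + 33, -19, by ring, by decide,
    (by decide : Odd (7 : ℤ)).mul (ha.mul hc.pow), ?_⟩
  intro J hJ
  refine chain_ne (s10 ((2 : ℤ) ^ m))
    ![-(7 * (((2 : ℤ) ^ m - 1) ^ 39 * ((2 : ℤ) ^ m + 1))), -(133 * (((2 : ℤ) ^ m) ^ 2 - 1) ^ 19),
      -(1995 * (((2 : ℤ) ^ m) ^ 2 - 1) ^ 17), -(4389 * (((2 : ℤ) ^ m) ^ 2 - 1) ^ 15),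
      -(4389 * (((2 : ℤ) ^ m) ^ 2 - 1) ^ 13), -(19019 * (((2 : ℤ) ^ m) ^ 2 - 1) ^ 11),
      -(12103 * (((2 : ℤ) ^ m) ^ 2 - 1) ^ 9), -(2223 * (((2 : ℤ) ^ m) ^ 2 - 1) ^ 7),
      19, -(91 * (((2 : ℤ) ^ m) ^ 2 - 1))]
    ![0, m + 2, 3 * m + 6, 5 * m + 11, 7 * m + 16, 9 * m + 18, 11 * m + 22, 13 * m + 26,
      13 * m + 33, 19 * m + 33]
    (27 * m + 33) ?_ ?_ ?_ ?_ J hJ
  · intro i j hij
    fin_cases i <;> fin_cases j <;> simp at hij ⊢ <;> omega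
  · intro i
    fin_cases i <;> simp [s10] <;> ring
  · intro i
    fin_cases i
    · exact ((by decide : Odd (7 : ℤ)).mul (ha.pow.mul hc)).neg
    · exact ((by decide : Odd (133 : ℤ)).mul hv.pow).neg
    · exact ((by decide : Odd (1995 : ℤ)).mul hv.pow).neg
    · exact ((by decide : Odd (4389 : ℤ)).mul hv.pow).neg
    · exact ((by decide : Odd (4389 : ℤ)).mul hv.pow).neg
    · exact ((by decide : Odd (19019 : ℤ)).mul hv.pow).neg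
    · exact ((by decide : Odd (12103 : ℤ)).mul hv.pow).neg
    · exact ((by decide : Odd (2223 : ℤ)).mul hv.pow).neg
    · exact (by decide : Odd (19 : ℤ))
    · exact ((by decide : Odd (91 : ℤ)).mul hv).neg
  · intro i
    fin_cases i <;> simp <;> omega

end base

/-- powers of two divide powers of an even number -/
theorem sm_two_pow (b : ℤ) (hb : (2 : ℤ) ∣ b) (m : ℕ) : Sm b ((2 : ℤ) ^ m) :=
  (Sm.of_dvd hb).pow m

end Pool.Agent.MP_7bfa24_nt.Semi
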