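import Mathlib

set_option autoImplicit false

namespace Pool.Agent.MP_7bfa24_nt.Semi

open Finset

/-- `p + q + ∑ s = 0`, `p = 2^E p'` with `p'` odd, `q` odd, and no nonempty subsum of the family `s`
is divisible by `2^E`. -/
def Good {ι : Type} [Fintype ι] (p q : ℤ) (s : ι → ℤ) : Prop :=
  p + q + ∑ i, s i = 0 ∧ ∃ (E : ℕ) (p' : ℤ), p = 2 ^ E * p' ∧ Odd p' ∧ Odd q ∧
    ∀ J : Finset ι, (2 : ℤ) ^ E ∣ ∑ i ∈ J, s i → J = ∅

/-- The glued family. -/
def glue {ι κ : Type} (q p' : ℤ) (s : ι → ℤ) (s' : κ → ℤ) : ι ⊕ κ → ℤ :=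
  Sum.elim (fun i => p' * s i) (fun j => -q * s' j)

theorem Good.glue {ι κ : Type} [Fintype ι] [Fintype κ] {p q p' q' : ℤ} {s : ι → ℤ} {s' : κ → ℤ}
    (h : Good p q s) (h' : Good p' q' s') :
    Good (p * p') (-(q * q')) (glue q p' s s') := by
  obtain ⟨hs, E, a, hp, ha, hq, hJ⟩ := h
  obtain ⟨hs', E', a', hp', ha', hq', hJ'⟩ := h'
  refine ⟨?_, E + E', a * a', ?_, ha.mul ha', (hq.mul hq').neg, ?_⟩
  · have h1 : ∑ i, Semi.glue q p' s s' i = p' * ∑ i, s i + -q * ∑ j, s' j := by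
      simp [Semi.glue, Fintype.sum_sum_type, Finset.mul_sum]
    rw [h1]
    have e1 : ∑ i, s i = -p - q := by linarith
    have e2 : ∑ i, s' i = -p' - q' := by linarith
    rw [e1, e2]; ring
  · rw [hp, hp']; ring
  · intro J hdiv
    have hsum : ∑ i ∈ J, Semi.glue q p' s s' i
        = p' * ∑ i ∈ J.toLeft, s i + -q * ∑ j ∈ J.toRight, s' j := by
      conv_lhs => rw [← Finset.toLeft_disjSum_toRight (u := J)]
      rw [Finset.sum_disjSum]
      simp [Semi.glue, Finset.mul_sum]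
    rw [hsum] at hdiv
    have hqc : IsCoprime ((2 : ℤ) ^ E') (-q) := by
      refine IsCoprime.pow_left ?_
      rw [IsCoprime.neg_right_iff]
      obtain ⟨k, hk⟩ := hq
      exact ⟨-k, 1, by rw [hk]; ring⟩
    have hR : J.toRight = ∅ := by
      apply hJ'
      have h1 : (2 : ℤ) ^ E' ∣ p' * ∑ i ∈ J.toLeft, s i + -q * ∑ j ∈ J.toRight, s' j :=
        dvd_trans (pow_dvd_pow 2 (Nat.le_add_left E' E)) hdiv
      have h2 : (2 : ℤ) ^ E' ∣ p' * ∑ i ∈ J.toLeft, s i := by
        rw [hp']; exact Dvd.dvd.mul_right (Dvd.intro _ rfl) _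
      have h3 : (2 : ℤ) ^ E' ∣ -q * ∑ j ∈ J.toRight, s' j := (dvd_add_right h2).mp h1
      exact hqc.dvd_of_dvd_mul_left h3
    have hL : J.toLeft = ∅ := by
      apply hJ
      rw [hR] at hdiv
      simp only [Finset.sum_empty, mul_zero, add_zero] at hdiv
      rw [hp', pow_add, mul_comm ((2 : ℤ) ^ E), mul_assoc] at hdiv
      have h2 : (2 : ℤ) ^ E ∣ a' * ∑ i ∈ J.toLeft, s i :=
        (mul_dvd_mul_iff_left (pow_ne_zero _ two_ne_zero)).mp hdiv
      have hc : IsCoprime ((2 : ℤ) ^ E) a' := by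
        refine IsCoprime.pow_left ?_
        obtain ⟨k, hk⟩ := ha'
        exact ⟨-k, 1, by rw [hk]; ring⟩
      exact hc.dvd_of_dvd_mul_left h2
    rw [← Finset.toLeft_disjSum_toRight (u := J), hR, hL]
    simp

/-- A family with strictly increasing `2`-adic valuations below `E`. -/
theorem chain_ne {r : ℕ} (s t : Fin r → ℤ) (k : Fin r → ℕ) (E : ℕ) (hk : StrictMono k)
    (hs : ∀ i, s i = 2 ^ k i * t i) (ht : ∀ i, Odd (t i)) (hE : ∀ i, k i < E)
    (J : Finset (Fin r)) (hJ : (2 : ℤ) ^ E ∣ ∑ i ∈ J, s i) : J = ∅ := by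
  by_contra hne
  have hne' : J.Nonempty := Finset.nonempty_iff_ne_empty.mpr hne
  set i0 := J.min' hne' with hi0
  have hi0J : i0 ∈ J := Finset.min'_mem J hne'
  rw [← Finset.add_sum_erase J s hi0J] at hJ
  have h1 : (2 : ℤ) ^ (k i0 + 1) ∣ ∑ i ∈ J.erase i0, s i := by
    apply Finset.dvd_sum
    intro i hi
    have hlt : i0 < i := by
      have h2 := Finset.min'_le J i (Finset.mem_of_mem_erase hi)
      exact lt_of_le_of_ne h2 (Finset.ne_of_mem_erase hi).symm
    rw [hs i]
    exact Dvd.dvd.mul_right (pow_dvd_pow 2 (hk hlt)) _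
  have h2 : (2 : ℤ) ^ (k i0 + 1) ∣ s i0 + ∑ i ∈ J.erase i0, s i :=
    dvd_trans (pow_dvd_pow 2 (hE i0)) hJ
  have h3 : (2 : ℤ) ^ (k i0 + 1) ∣ s i0 := (dvd_add_left h1).mp h2
  rw [hs i0, pow_succ] at h3
  have h4 : (2 : ℤ) ∣ t i0 := (mul_dvd_mul_iff_left (pow_ne_zero _ two_ne_zero)).mp h3
  exact (Int.not_even_iff_odd.mpr (ht i0)) (even_iff_two_dvd.mpr h4)

/-- No proper nonempty subsum of a good relation vanishes. -/
theorem Good.subsum {ι : Type} [Fintype ι] [DecidableEq ι] {p q : ℤ} {s : ι → ℤ}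
    (h : Good p q s) (t : Option (Option ι) → ℤ) (ht0 : t none = p) (ht1 : t (some none) = q)
    (ht2 : ∀ i, t (some (some i)) = s i) (I : Finset (Option (Option ι)))
    (hI : ∑ i ∈ I, t i = 0) : I = ∅ ∨ I = univ := by
  obtain ⟨hs, E, p', hp, hp', hq, hJ⟩ := h
  have hp0 : p ≠ 0 := by
    rw [hp]
    refine mul_ne_zero (pow_ne_zero _ two_ne_zero) ?_
    rintro rfl
    simp at hp'
  have htot : ∑ i, t i = 0 := by
    rw [Fintype.sum_option, Fintype.sum_option, ht0, ht1]
    simp only [ht2]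
    linarith
  -- the case without `q`
  have key : ∀ I : Finset (Option (Option ι)), ∑ i ∈ I, t i = 0 → some none ∉ I → I = ∅ := by
    intro I hI hqI
    let J : Finset ι := univ.filter (fun i => some (some i) ∈ I)
    have hsplit : ∑ i ∈ I, t i = (if none ∈ I then p else 0) + ∑ i ∈ J, s i := by
      have e1 : ∑ i ∈ I, t i = ∑ i, if i ∈ I then t i else 0 := by
        rw [Finset.sum_ite_mem, Finset.univ_inter]
      rw [e1, Fintype.sum_option, Fintype.sum_option, if_neg hqI, ht0, zero_add]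
      congr 1
      rw [Finset.sum_filter]
      exact Finset.sum_congr rfl (fun i _ => by rw [ht2])
    have hJe : J = ∅ := by
      apply hJ
      rw [hsplit] at hI
      have e2 : ∑ i ∈ J, s i = -(if none ∈ I then p else 0) := by linarith
      rw [e2, dvd_neg]
      split_ifs
      · rw [hp]; exact Dvd.intro _ rfl
      · exact dvd_zero _
    have hpI : none ∉ I := by
      intro hmem
      rw [hsplit, if_pos hmem, hJe] at hI
      simp at hI
      exact hp0 hI
    ext i
    simp only [Finset.notMem_empty, iff_false]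
    rcases i with _ | _ | i
    · exact hpI
    · exact hqI
    · intro hmem
      have : i ∈ J := by simp [J, hmem]
      rw [hJe] at this
      simp at this
  by_cases hqI : some none ∈ I
  · right
    have hc : ∑ i ∈ Iᶜ, t i = 0 := by
      have := Finset.sum_add_sum_compl I t
      rw [hI, htot, zero_add] at this
      exact this
    have := key Iᶜ hc (by simpa using hqI)
    simpa using this
  · left
    exact key I hI hqI

end Pool.Agent.MP_7bfa24_nt.Semi
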