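import Pool.Agent.Lib.MP_7bfa24_nt.Semi.HasBase

set_option autoImplicit false

namespace Pool.Agent.MP_7bfa24_nt.Semi

open Finset

theorem coprime_key (k : ℕ) :
    IsCoprime (418 : ℤ) (91 * (((2 : ℤ) ^ (45 * k + 1)) ^ 2 - 1)) := by
  have h1 : IsCoprime (418 : ℤ) 91 := by
    rw [Int.isCoprime_iff_gcd_eq_one]; rfl
  refine h1.mul_right ?_
  have e : ((2 : ℤ) ^ (45 * k + 1)) ^ 2 - 1 = 4 * (2 ^ 90) ^ k - 1 := by
    rw [← pow_mul, show (45 * k + 1) * 2 = 90 * k + 2 by ring, pow_add, pow_mul]; ring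
  have h209 : (209 : ℤ) ∣ (2 ^ 90) ^ k - 1 := by
    have h2 : (209 : ℤ) ∣ 2 ^ 90 - 1 := by norm_num
    exact dvd_trans h2 (sub_one_dvd_pow_sub_one _ _)
  obtain ⟨c, hc⟩ := h209
  have e2 : ((2 : ℤ) ^ (45 * k + 1)) ^ 2 - 1 = 209 * (4 * c) + 3 := by rw [e]; linarith
  have h3 : IsCoprime (209 : ℤ) (((2 : ℤ) ^ (45 * k + 1)) ^ 2 - 1) := by
    rw [e2]
    have h4 : IsCoprime (209 : ℤ) 3 := by
      rw [Int.isCoprime_iff_gcd_eq_one]; rfl
    exact (IsCoprime.mul_add_left_right_iff).mpr h4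
  have h5 : IsCoprime (2 : ℤ) (((2 : ℤ) ^ (45 * k + 1)) ^ 2 - 1) := by
    refine ⟨2 ^ (90 * k + 1), -1, ?_⟩
    rw [← pow_mul, show (45 * k + 1) * 2 = (90 * k + 1) + 1 by ring, pow_succ]
    ring
  have h6 := h5.mul_left h3
  norm_num at h6
  exact h6

theorem coprime_of_sm {a b p q : ℤ} (h : IsCoprime a b) (hp : Sm a p) (hq : Sm b q) :
    IsCoprime p q := by
  obtain ⟨N, hN⟩ := hp
  obtain ⟨M, hM⟩ := hq
  exact IsCoprime.of_isCoprime_of_dvd_left
    (IsCoprime.of_isCoprime_of_dvd_right (h.pow (m := N) (n := M)) hM) hN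

/-- The product of the primes dividing a product of numbers which divide powers of `b`. -/
theorem rad_le {n : ℕ} (x : Fin n → ℤ) (b : ℤ) (hb : b ≠ 0) (hx : ∀ i, Sm b (x i)) :
    (∏ j, x j).natAbs.primeFactors.prod id ≤ b.natAbs := by
  have h1 : (∏ j, x j).natAbs.primeFactors ⊆ b.natAbs.primeFactors := by
    intro r hr
    have hrp := Nat.prime_of_mem_primeFactors hr
    have hd := Nat.dvd_of_mem_primeFactors hr
    have hd' : (r : ℤ) ∣ ∏ j, x j := Int.natCast_dvd.mpr hd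
    obtain ⟨j, -, hj⟩ := (Prime.dvd_finsetProd_iff (Nat.prime_iff_prime_int.mp hrp) _).mp hd'
    obtain ⟨N, hN⟩ := hx j
    have h2 : (r : ℤ) ∣ b := (Nat.prime_iff_prime_int.mp hrp).dvd_of_dvd_pow (dvd_trans hj hN)
    rw [Nat.mem_primeFactors]
    exact ⟨hrp, Int.natCast_dvd.mp h2, by simpa using hb⟩
  calc (∏ j, x j).natAbs.primeFactors.prod id
      ≤ b.natAbs.primeFactors.prod id :=
        Finset.prod_le_prod_of_subset_of_one_le' h1
          (fun r hr _ => (Nat.prime_of_mem_primeFactors hr).one_lt.le)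
    _ ≤ b.natAbs := Nat.le_of_dvd (by positivity) (Nat.prod_primeFactors_dvd _)

/-- The tuples given by `Has`. -/
theorem tuple (d k : ℕ) (H : Has ((2 : ℤ) ^ (45 * k + 1)) d) :
    ∃ x : Fin (d + 2) → ℤ, ∑ i, x i = 0 ∧ Finset.univ.gcd x = 1 ∧
      (∀ I : Finset (Fin (d + 2)), I.Nonempty → I ≠ Finset.univ → ∑ i ∈ I, x i ≠ 0) ∧
      (∃ i, ((2 : ℤ) ^ (45 * k + 1) - 1) ^ (4 * d) ≤ |x i|) ∧
      (∏ j, x j).natAbs.primeFactors.prod id ≤
        (570570 * (((2 : ℤ) ^ (45 * k + 1)) ^ 2 - 1)).natAbs := by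
  classical
  obtain ⟨ι, _, p, q, s, hc, hg, hp, hq, hs, hb⟩ := H
  have hcard : Fintype.card (Fin (d + 2)) = Fintype.card (Option (Option ι)) := by
    rw [Fintype.card_fin, Fintype.card_option, Fintype.card_option, hc]
  let e : Fin (d + 2) ≃ Option (Option ι) := Fintype.equivOfCardEq hcard
  let t : Option (Option ι) → ℤ := fun o => match o with
    | none => p
    | some none => q
    | some (some i) => s i
  have hB : (570570 * (((2 : ℤ) ^ (45 * k + 1)) ^ 2 - 1)) ≠ 0 := by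
    have h1 : (2 : ℤ) ≤ 2 ^ (45 * k + 1) := by
      rw [pow_succ]
      have : (1 : ℤ) ≤ 2 ^ (45 * k) := by exact_mod_cast Nat.one_le_two_pow
      linarith
    have h2 : (0 : ℤ) < ((2 : ℤ) ^ (45 * k + 1)) ^ 2 - 1 := by nlinarith
    positivity
  have hcop : IsCoprime p q := coprime_of_sm (coprime_key k) hp hq
  refine ⟨fun i => t (e i), ?_, ?_, ?_, ?_, ?_⟩
  · rw [Equiv.sum_comp e t, Fintype.sum_option, Fintype.sum_option]
    have := hg.1
    show p + (q + ∑ i, s i) = 0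
    linarith
  · have h1 : Finset.univ.gcd (fun i => t (e i)) ∣ p := by
      have := Finset.gcd_dvd (f := fun i => t (e i)) (Finset.mem_univ (e.symm none))
      simpa [t] using this
    have h2 : Finset.univ.gcd (fun i => t (e i)) ∣ q := by
      have := Finset.gcd_dvd (f := fun i => t (e i)) (Finset.mem_univ (e.symm (some none)))
      simpa [t] using this
    have h3 : IsUnit (Finset.univ.gcd (fun i => t (e i))) := hcop.isUnit_of_dvd' h1 h2
    have h4 : normalize (Finset.univ.gcd (fun i => t (e i)))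
        = Finset.univ.gcd (fun i => t (e i)) := Finset.normalize_gcd
    rw [← h4]
    exact normalize_eq_one.mpr h3
  · intro I hI hI' h0
    have h1 : ∑ j ∈ I.map e.toEmbedding, t j = 0 := by
      rw [Finset.sum_map]; exact h0
    rcases hg.subsum t rfl rfl (fun i => rfl) _ h1 with h | h
    · rw [Finset.map_eq_empty] at h
      exact hI.ne_empty h
    · apply hI'
      rw [Finset.eq_univ_iff_forall] at h ⊢
      intro i
      have := h (e i)
      simpa using this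
  · refine ⟨e.symm (some none), ?_⟩
    simpa [t] using hb
  · apply rad_le _ _ hB
    intro i
    have d1 : (418 : ℤ) ∣ 570570 * (((2 : ℤ) ^ (45 * k + 1)) ^ 2 - 1) :=
      Dvd.dvd.mul_right (by norm_num) _
    have d2 : 91 * (((2 : ℤ) ^ (45 * k + 1)) ^ 2 - 1) ∣
        570570 * (((2 : ℤ) ^ (45 * k + 1)) ^ 2 - 1) := mul_dvd_mul_right (by norm_num) _
    rcases h : e i with _ | _ | j
    · exact hp.mono d1
    · exact hq.mono d2
    · exact hs j

theorem main (d : ℕ) (hd : 1 ≤ d) (H : ∀ m, 1 ≤ m → Has ((2 : ℤ) ^ m) d) (ε : ℝ) (hε : ε < 1) :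
    ¬ ∃ C : ℝ, ∀ x : Fin (d + 2) → ℤ, ∑ i, x i = 0 → Finset.univ.gcd x = 1 →
      (∀ I : Finset (Fin (d + 2)), I.Nonempty → I ≠ Finset.univ → ∑ i ∈ I, x i ≠ 0) →
      ∀ i, (((|x i| : ℤ)) : ℝ) ≤
        C * (((∏ j, x j).natAbs.primeFactors.prod id : ℕ) : ℝ) ^ (2 * ((d + 2 : ℕ) : ℝ) - 5 + ε) := by
  rintro ⟨C, hC⟩
  set θ : ℝ := 2 * ((d + 2 : ℕ) : ℝ) - 5 + ε with hθ
  set τ : ℝ := max θ 0 with hτ
  have hd' : (1 : ℝ) ≤ d := by exact_mod_cast hd
  have hτd : τ < 2 * d := by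
    apply max_lt
    · rw [hθ]; push_cast; linarith
    · linarith
  have hτ0 : 0 ≤ τ := le_max_right _ _
  set δ : ℝ := 4 * d - 2 * τ with hδ
  have hδ0 : 0 < δ := by rw [hδ]; linarith
  set K : ℝ := |C| * 570570 ^ τ * 2 ^ (4 * d) with hK
  -- large x
  have hT : Filter.Tendsto (fun k : ℕ => ((2 : ℝ) ^ (45 * k + 1)) ^ δ) Filter.atTop
      Filter.atTop := by
    apply (tendsto_rpow_atTop hδ0).comp
    have h1 : Filter.Tendsto (fun n : ℕ => (2 : ℝ) ^ n) Filter.atTop Filter.atTop :=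
      tendsto_pow_atTop_atTop_of_one_lt one_lt_two
    apply h1.comp
    apply Filter.tendsto_atTop_mono (f := fun k : ℕ => k) (fun k => by show k ≤ 45 * k + 1; omega)
    exact Filter.tendsto_id
  obtain ⟨k, hk⟩ := (hT.eventually_gt_atTop K).exists
  obtain ⟨x, h1, h2, h3, ⟨i, hi⟩, h5⟩ := tuple d k (H _ (by omega))
  have hb := hC x h1 h2 h3 i
  set y : ℝ := (2 : ℝ) ^ (45 * k + 1) with hy
  have hy2 : 2 ≤ y := by
    rw [hy, pow_succ]
    have : (1 : ℝ) ≤ 2 ^ (45 * k) := one_le_pow₀ one_le_two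
    linarith
  have hlow : (y / 2) ^ (4 * d) ≤ (((|x i| : ℤ)) : ℝ) := by
    have e1 : (((((2 : ℤ) ^ (45 * k + 1) - 1) ^ (4 * d) : ℤ)) : ℝ) ≤ (((|x i| : ℤ)) : ℝ) := by
      exact_mod_cast hi
    refine le_trans ?_ e1
    push_cast
    apply pow_le_pow_left₀ (by linarith)
    rw [← hy]; linarith
  set R : ℕ := (∏ j, x j).natAbs.primeFactors.prod id with hR
  have hR1 : (1 : ℝ) ≤ (R : ℝ) := by
    have : 1 ≤ R := by
      rw [hR]
      apply Nat.one_le_iff_ne_zero.mpr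
      apply Finset.prod_ne_zero_iff.mpr
      intro r hr
      exact (Nat.prime_of_mem_primeFactors hr).ne_zero
    exact_mod_cast this
  have hR2 : (R : ℝ) ≤ 570570 * y ^ 2 := by
    have e1 : ((570570 * (((2 : ℤ) ^ (45 * k + 1)) ^ 2 - 1)).natAbs : ℤ)
        = 570570 * (((2 : ℤ) ^ (45 * k + 1)) ^ 2 - 1) := by
      apply Int.natAbs_of_nonneg
      have : (1 : ℤ) ≤ 2 ^ (45 * k + 1) := by exact_mod_cast Nat.one_le_two_pow
      nlinarith
    have e2 : (R : ℤ) ≤ 570570 * (((2 : ℤ) ^ (45 * k + 1)) ^ 2 - 1) := by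
      rw [← e1]; exact_mod_cast h5
    have e3 : (R : ℝ) ≤ 570570 * (((2 : ℝ) ^ (45 * k + 1)) ^ 2 - 1) := by exact_mod_cast e2
    rw [← hy] at e3
    linarith
  have hup : C * (R : ℝ) ^ θ ≤ |C| * (570570 ^ τ * y ^ (2 * τ)) := by
    have e1 : (R : ℝ) ^ θ ≤ (R : ℝ) ^ τ := Real.rpow_le_rpow_of_exponent_le hR1 (le_max_left _ _)
    have e2 : (R : ℝ) ^ τ ≤ (570570 * y ^ 2) ^ τ := Real.rpow_le_rpow (by linarith) hR2 hτ0
    have e3 : ((570570 : ℝ) * y ^ 2) ^ τ = 570570 ^ τ * y ^ (2 * τ) := by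
      rw [Real.mul_rpow (by norm_num) (by positivity), Real.rpow_mul (by linarith)]
      norm_num
    have e4 : (0 : ℝ) ≤ (R : ℝ) ^ θ := Real.rpow_nonneg (by linarith) _
    calc C * (R : ℝ) ^ θ ≤ |C| * (R : ℝ) ^ θ := mul_le_mul_of_nonneg_right (le_abs_self C) e4
      _ ≤ |C| * (570570 ^ τ * y ^ (2 * τ)) := by
        apply mul_le_mul_of_nonneg_left _ (abs_nonneg C)
        rw [← e3]; exact e1.trans e2
  have hfin : (y / 2) ^ (4 * d) ≤ |C| * (570570 ^ τ * y ^ (2 * τ)) := hlow.trans (hb.trans hup)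
  have hy0 : 0 < y := by linarith
  have e5 : y ^ (4 * d) = y ^ δ * y ^ (2 * τ) := by
    rw [← Real.rpow_add hy0, hδ, ← Real.rpow_natCast]
    congr 1
    push_cast; ring
  have e6 : y ^ δ * y ^ (2 * τ) ≤ K * y ^ (2 * τ) := by
    rw [← e5]
    have e7 : y ^ (4 * d) = (y / 2) ^ (4 * d) * 2 ^ (4 * d) := by
      rw [← mul_pow, div_mul_cancel₀ _ (two_ne_zero)]
    rw [e7]
    calc (y / 2) ^ (4 * d) * 2 ^ (4 * d)
        ≤ |C| * (570570 ^ τ * y ^ (2 * τ)) * 2 ^ (4 * d) :=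
          mul_le_mul_of_nonneg_right hfin (by positivity)
      _ = K * y ^ (2 * τ) := by rw [hK]; ring
  have e8 : y ^ δ ≤ K := le_of_mul_le_mul_right e6 (Real.rpow_pos_of_pos hy0 _)
  exact absurd hk (not_lt.mpr e8)

end Pool.Agent.MP_7bfa24_nt.Semi
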