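import Pool.Agent.Lib.MP_7bfa24_nt.Semi.Base

set_option autoImplicit false

namespace Pool.Agent.MP_7bfa24_nt.Semi

open Finset

private theorem smc {b : ℤ} (hb : (570570 : ℤ) ∣ b) (c : ℤ) (hc : c ∣ 570570 ^ 33) : Sm b c :=
  ⟨33, dvd_trans hc (pow_dvd_pow_of_dvd hb 33)⟩

private theorem one_le_two_pow' (m : ℕ) : (1 : ℤ) ≤ 2 ^ m := by
  exact_mod_cast Nat.one_le_two_pow

private theorem dvd_a (x c : ℤ) : (x - 1) ∣ c * (x ^ 2 - 1) :=
  Dvd.dvd.mul_left ⟨x + 1, by ring⟩ _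

private theorem dvd_c (x c : ℤ) : (x + 1) ∣ c * (x ^ 2 - 1) :=
  Dvd.dvd.mul_left ⟨x - 1, by ring⟩ _

theorem has8 (m : ℕ) (hm : 1 ≤ m) : Has ((2 : ℤ) ^ m) 8 := by
  have h1 := one_le_two_pow' m
  refine ⟨Fin 8, inferInstance, _, _, _, by simp, good8 m hm, ?_, ?_, ?_, ?_⟩
  · have h2 : Sm 418 ((2 : ℤ) ^ m) := sm_two_pow _ (by norm_num) m
    have h3 : Sm 418 65536 := ⟨16, by norm_num⟩
    exact (h3.mul (h2.pow 27)).neg
  · exact ((Sm.of_dvd (dvd_a _ _)).pow 5).mul ((Sm.of_dvd (dvd_c _ _)).pow 27)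
  · set x : ℤ := (2 : ℤ) ^ m with hx
    have hb : (570570 : ℤ) ∣ 570570 * (x ^ 2 - 1) := Dvd.intro _ rfl
    have P : Sm (570570 * (x ^ 2 - 1)) x := sm_two_pow _ (Dvd.dvd.mul_right (by norm_num) _) m
    have A : Sm (570570 * (x ^ 2 - 1)) (x - 1) := Sm.of_dvd (dvd_a _ _)
    have C : Sm (570570 * (x ^ 2 - 1)) (x + 1) := Sm.of_dvd (dvd_c _ _)
    have V : Sm (570570 * (x ^ 2 - 1)) (x ^ 2 - 1) := Sm.of_dvd (Dvd.intro_left _ rfl)
    intro i
    fin_cases i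
    · exact ((A.pow 27).mul (C.pow 5)).neg
    · exact (((smc hb 44 (by norm_num)).mul P).mul (V.pow 15)).neg
    · exact (((smc hb 3520 (by norm_num)).mul (P.pow 3)).mul (V.pow 13)).neg
    · exact (((smc hb 13312 (by norm_num)).mul (P.pow 5)).mul (V.pow 11)).neg
    · exact (smc hb 65536 (by norm_num)).mul (P.pow 5)
    · exact ((smc hb 851968 (by norm_num)).mul (P.pow 11)).mul (V.pow 5)
    · exact ((smc hb 3604480 (by norm_num)).mul (P.pow 13)).mul (V.pow 3)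
    · exact ((smc hb 720896 (by norm_num)).mul (P.pow 15)).mul V
  · set x : ℤ := (2 : ℤ) ^ m with hx
    have h0 : (0 : ℤ) ≤ x - 1 := by linarith
    have e : (x - 1) ^ (4 * 8) = (x - 1) ^ 5 * (x - 1) ^ 27 := by ring
    rw [e, abs_of_nonneg (mul_nonneg (pow_nonneg h0 _) (pow_nonneg (by linarith) _))]
    exact mul_le_mul_of_nonneg_left (pow_le_pow_left₀ h0 (by linarith) _) (pow_nonneg h0 _)

theorem has9 (m : ℕ) (hm : 1 ≤ m) : Has ((2 : ℤ) ^ m) 9 := by
  have h1 := one_le_two_pow' m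
  refine ⟨Fin 9, inferInstance, _, _, _, by simp, good9 m hm, ?_, ?_, ?_, ?_⟩
  · have h2 : Sm 418 ((2 : ℤ) ^ m) := sm_two_pow _ (by norm_num) m
    have h3 : Sm 418 720896 := ⟨16, by norm_num⟩
    exact h3.mul (h2.pow 31)
  · exact ((Sm.of_dvd (Dvd.dvd.mul_right (by norm_num) _)).mul
      (((Sm.of_dvd (dvd_a _ _)).pow 7).mul ((Sm.of_dvd (dvd_c _ _)).pow 29))).neg
  · set x : ℤ := (2 : ℤ) ^ m with hx
    have hb : (570570 : ℤ) ∣ 570570 * (x ^ 2 - 1) := Dvd.intro _ rfl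
    have P : Sm (570570 * (x ^ 2 - 1)) x := sm_two_pow _ (Dvd.dvd.mul_right (by norm_num) _) m
    have A : Sm (570570 * (x ^ 2 - 1)) (x - 1) := Sm.of_dvd (dvd_a _ _)
    have C : Sm (570570 * (x ^ 2 - 1)) (x + 1) := Sm.of_dvd (dvd_c _ _)
    have V : Sm (570570 * (x ^ 2 - 1)) (x ^ 2 - 1) := Sm.of_dvd (Dvd.intro_left _ rfl)
    intro i
    fin_cases i
    · exact (smc hb 13 (by norm_num)).mul ((A.pow 29).mul (C.pow 7))
    · exact ((smc hb 572 (by norm_num)).mul P).mul (V.pow 17)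
    · exact ((smc hb 45760 (by norm_num)).mul (P.pow 3)).mul (V.pow 15)
    · exact ((smc hb 304128 (by norm_num)).mul (P.pow 5)).mul (V.pow 13)
    · exact ((smc hb 720896 (by norm_num)).mul (P.pow 5)).neg
    · exact ((smc hb 9371648 (by norm_num)).mul (P.pow 9)).mul (V.pow 2)
    · exact ((smc hb 7667712 (by norm_num)).mul (P.pow 11)).mul (V.pow 7)
    · exact (((smc hb 9371648 (by norm_num)).mul (P.pow 17)).mul V).neg
    · exact (((smc hb 9371648 (by norm_num)).mul (P.pow 23)).mul (V.pow 2)).neg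
  · set x : ℤ := (2 : ℤ) ^ m with hx
    have h0 : (0 : ℤ) ≤ x - 1 := by linarith
    have e : (x - 1) ^ (4 * 9) = (x - 1) ^ 7 * (x - 1) ^ 29 := by ring
    have h2 : 0 ≤ (x - 1) ^ 7 * (x + 1) ^ 29 :=
      mul_nonneg (pow_nonneg h0 _) (pow_nonneg (by linarith) _)
    rw [e, abs_neg, abs_of_nonneg (by linarith)]
    have h3 : (x - 1) ^ 7 * (x - 1) ^ 29 ≤ (x - 1) ^ 7 * (x + 1) ^ 29 :=
      mul_le_mul_of_nonneg_left (pow_le_pow_left₀ h0 (by linarith) _) (pow_nonneg h0 _)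
    linarith

theorem has10 (m : ℕ) (hm : 1 ≤ m) : Has ((2 : ℤ) ^ m) 10 := by
  have h1 := one_le_two_pow' m
  refine ⟨Fin 10, inferInstance, _, _, _, by simp, good10 m hm, ?_, ?_, ?_, ?_⟩
  · have h2 : Sm 418 ((2 : ℤ) ^ m) := sm_two_pow _ (by norm_num) m
    have h3 : Sm 418 163208757248 := ⟨33, by norm_num⟩
    exact (h3.mul (h2.pow 27)).neg
  · exact (Sm.of_dvd (Dvd.dvd.mul_right (by norm_num) _)).mul
      ((Sm.of_dvd (dvd_a _ _)).mul ((Sm.of_dvd (dvd_c _ _)).pow 39))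
  · set x : ℤ := (2 : ℤ) ^ m with hx
    have hb : (570570 : ℤ) ∣ 570570 * (x ^ 2 - 1) := Dvd.intro _ rfl
    have P : Sm (570570 * (x ^ 2 - 1)) x := sm_two_pow _ (Dvd.dvd.mul_right (by norm_num) _) m
    have A : Sm (570570 * (x ^ 2 - 1)) (x - 1) := Sm.of_dvd (dvd_a _ _)
    have C : Sm (570570 * (x ^ 2 - 1)) (x + 1) := Sm.of_dvd (dvd_c _ _)
    have V : Sm (570570 * (x ^ 2 - 1)) (x ^ 2 - 1) := Sm.of_dvd (Dvd.intro_left _ rfl)
    intro i
    fin_cases i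
    · exact ((smc hb 7 (by norm_num)).mul ((A.pow 39).mul C)).neg
    · exact (((smc hb 532 (by norm_num)).mul P).mul (V.pow 19)).neg
    · exact (((smc hb 127680 (by norm_num)).mul (P.pow 3)).mul (V.pow 17)).neg
    · exact (((smc hb 8988672 (by norm_num)).mul (P.pow 5)).mul (V.pow 15)).neg
    · exact (((smc hb 287637504 (by norm_num)).mul (P.pow 7)).mul (V.pow 13)).neg
    · exact (((smc hb 4985716736 (by norm_num)).mul (P.pow 9)).mul (V.pow 11)).neg
    · exact (((smc hb 50763661312 (by norm_num)).mul (P.pow 11)).mul (V.pow 9)).neg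
    · exact (((smc hb 149183004672 (by norm_num)).mul (P.pow 13)).mul (V.pow 7)).neg
    · exact (smc hb 163208757248 (by norm_num)).mul (P.pow 13)
    · exact (((smc hb 781684047872 (by norm_num)).mul (P.pow 19)).mul V).neg
  · set x : ℤ := (2 : ℤ) ^ m with hx
    have h0 : (0 : ℤ) ≤ x - 1 := by linarith
    have e : (x - 1) ^ (4 * 10) = (x - 1) * (x - 1) ^ 39 := by ring
    have h2 : 0 ≤ (x - 1) * (x + 1) ^ 39 := mul_nonneg h0 (pow_nonneg (by linarith) _)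
    rw [e, abs_of_nonneg (by linarith)]
    have h3 : (x - 1) * (x - 1) ^ 39 ≤ (x - 1) * (x + 1) ^ 39 :=
      mul_le_mul_of_nonneg_left (pow_le_pow_left₀ h0 (by linarith) _) h0
    linarith

/-- Every `d` in the semigroup generated by 8, 9, 10 works. -/
theorem has_all (m : ℕ) (hm : 1 ≤ m) (a b c : ℕ) (h : 1 ≤ a + b + c) :
    Has ((2 : ℤ) ^ m) (8 * a + 9 * b + 10 * c) := by
  have h1 := one_le_two_pow' m
  have key : ∀ k : ℕ, ∀ a b c : ℕ, a + b + c = k + 1 →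
      Has ((2 : ℤ) ^ m) (8 * a + 9 * b + 10 * c) := by
    intro k
    induction k with
    | zero =>
      intro a b c h
      have : (a = 1 ∧ b = 0 ∧ c = 0) ∨ (a = 0 ∧ b = 1 ∧ c = 0) ∨ (a = 0 ∧ b = 0 ∧ c = 1) := by omega
      rcases this with ⟨rfl, rfl, rfl⟩ | ⟨rfl, rfl, rfl⟩ | ⟨rfl, rfl, rfl⟩
      · exact has8 m hm
      · exact has9 m hm
      · exact has10 m hm
    | succ k ih =>
      intro a b c h
      rcases Nat.eq_zero_or_pos a with ha | ha
      · rcases Nat.eq_zero_or_pos b with hb | hb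
        · obtain ⟨c', rfl⟩ := Nat.exists_eq_add_of_le' (show 1 ≤ c by omega)
          have := (ih a b c' (by omega)).add h1 (has10 m hm)
          rwa [show 8 * a + 9 * b + 10 * c' + 10 = 8 * a + 9 * b + 10 * (c' + 1) by ring] at this
        · obtain ⟨b', rfl⟩ := Nat.exists_eq_add_of_le' hb
          have := (ih a b' c (by omega)).add h1 (has9 m hm)
          rwa [show 8 * a + 9 * b' + 10 * c + 9 = 8 * a + 9 * (b' + 1) + 10 * c by ring] at this
      · obtain ⟨a', rfl⟩ := Nat.exists_eq_add_of_le' ha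
        have := (ih a' b c (by omega)).add h1 (has8 m hm)
        rwa [show 8 * a' + 9 * b + 10 * c + 8 = 8 * (a' + 1) + 9 * b + 10 * c by ring] at this
  exact key (a + b + c - 1) a b c (by omega)

end Pool.Agent.MP_7bfa24_nt.Semi
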